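import Pool.Agent.Lib.helper3.Padic
import Pool.Agent.Lib.helper3.Zd
import Pool.Agent.Lib.helper3.Coins

namespace Pool.Agent.H.MP_cc1c4a_pr

open Finset Filter Pool.Agent.Lib.helper3 Padic Zd Coins

variable {d : ℕ}

noncomputable def w (U : Fin d → ℤ_[3]) (x y : Fin d → ℤ) (j : Fin d) : ℕ :=
  (2 * U j - (x j + y j : ℤ)).valuation

noncomputable def b (U : Fin d → ℤ_[3]) (x y : Fin d → ℤ) : ℕ :=
  ∑ j, if x j = y j then 0 else w U x y j

noncomputable def θ (d : ℕ) : ℝ := 1 / (2 * 9 ^ d)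

noncomputable def q' (U : Fin d → ℤ_[3]) (x y : Fin d → ℤ) : ℝ :=
  if ∀ j, x j = y j → b U x y ≤ w U x y j then
    1 - (∑ j, if x j = y j then θ d ^ w U x y j else 0) / (2 * d) else θ d ^ b U x y / 2

noncomputable def q (U : Fin d → ℤ_[3]) : Sym2 (Fin d → ℤ) → ℝ :=
  Sym2.lift ⟨q' U, fun x y => by simp only [q', b, w, add_comm (x _), eq_comm (a := x _)]⟩

noncomputable def X (U : Fin d → ℤ_[3]) (c : (G d).edgeSet → unitInterval) (e : (G d).edgeSet) :
    Bool := decide ((c e : ℝ) < q U e)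

lemma θ_pos : 0 < θ d := by unfold θ; positivity

lemma θ_le : θ d ≤ 1 := by
  have : (1 : ℝ) ≤ 9 ^ d := one_le_pow₀ (by norm_num)
  rw [θ, div_le_one (by positivity)]
  linarith

lemma q_mem (hd : 2 ≤ d) (U : Fin d → ℤ_[3]) (e : (G d).edgeSet) : 0 < q U e ∧ q U e < 1 := by
  obtain ⟨e, he⟩ := e
  induction e using Sym2.ind with
  | h x y =>
    obtain ⟨i, s, -, rfl⟩ := (adj_iff (x := x) (y := y)).mp he
    have : Nontrivial (Fin d) := Fin.nontrivial_iff_two_le.mpr hd
    obtain ⟨j, hj⟩ := exists_ne i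
    have h0 : (0 : ℝ) < d := by exact_mod_cast (by omega)
    have h1 := fun n => pow_pos (θ_pos (d := d)) n
    have h2 := fun n => pow_le_one₀ (n := n) (θ_pos (d := d)).le θ_le
    simp only [q, Sym2.lift_mk, q']
    split_ifs
    · rw [sub_pos, sub_lt_self_iff, div_lt_one (by positivity)]
      refine ⟨((sum_le_card_nsmul _ _ 1 fun j _ => ?_).trans_lt (by simp; linarith)), div_pos
        (sum_pos' (fun j _ => ?_) ⟨j, mem_univ _, by simp [hj, h1]⟩) (by positivity)⟩ <;>
      split_ifs <;> simp [h2, (h1 _).le]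
    · exact ⟨half_pos (h1 _), by linarith [h2 (b U x (x + Pi.single i s))]⟩

lemma val_meas : Measurable (PadicInt.valuation (p := 3)) := by
  refine measurable_of_Ici fun n => ?_
  rw [show _ ⁻¹' _ = {u : ℤ_[3] | n = 0} ∪ ({0}ᶜ ∩ res n ⁻¹' {0}) from Set.ext fun u => by
    by_cases h : u = 0
    · simp [h]
    · simpa [h, res_eq_zero, ← PadicInt.mem_span_pow_iff_le_valuation u h,
        Ideal.mem_span_singleton] using fun e : n = 0 => by simp [e]]
  exact (MeasurableSet.const _).union ((measurableSet_singleton _).compl.inter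
    (res_meas n (measurableSet_singleton _)))

lemma q_meas (e : Sym2 (Fin d → ℤ)) : Measurable fun U => q U e := by
  induction e using Sym2.ind with
  | h x y =>
    exact (Measurable.of_discrete (f := fun a : Fin d → ℕ =>
      if ∀ j, x j = y j → (∑ j, if x j = y j then 0 else a j) ≤ a j then
        1 - (∑ j, if x j = y j then θ d ^ a j else 0) / (2 * d) else
        θ d ^ (∑ j, if x j = y j then 0 else a j) / 2)).comp (measurable_pi_lambda (w · x y) fun j =>
          val_meas.comp (((measurable_pi_apply j).const_mul _).sub_const _))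

lemma val_neg (u : ℤ_[3]) : (-u).valuation = u.valuation := by
  have := PadicInt.valuation_pow (-u) 2
  rw [neg_sq, PadicInt.valuation_pow] at this
  omega

lemma q_aut (σ : Equiv.Perm (Fin d)) (s t : Fin d → ℤ) (hs : ∀ j, s j = 1 ∨ s j = -1)
    (U : Fin d → ℤ_[3]) (e) : q (fun j => s j * U (σ j) + t j)
      (e.map fun x j => s j * x (σ j) + t j) = q U e := by
  induction e using Sym2.ind with
  | h x y =>
    have h1 : ∀ j, w (fun j => s j * U (σ j) + t j) (fun j => s j * x (σ j) + t j)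
        (fun j => s j * y (σ j) + t j) j = w U x y (σ j) := fun j => by
      rw [w, w, show _ - _ = (s j : ℤ_[3]) * (2 * U (σ j) - (x (σ j) + y (σ j) : ℤ)) by
        push_cast; ring]
      rcases hs j with h | h <;> simp [h, -neg_sub, val_neg]
    have h2 : ∀ j, s j * x (σ j) + t j = s j * y (σ j) + t j ↔ x (σ j) = y (σ j) := fun j => by
      rcases hs j with h | h <;> simp [h]
    simp only [Sym2.map_mk, q, Sym2.lift_mk, q', b, h1, h2]
    rw [Equiv.sum_comp σ fun j => if x j = y j then 0 else w U x y j,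
      Equiv.sum_comp σ fun j => if x j = y j then θ d ^ w U x y j else 0]
    exact if_congr (σ.forall_congr_right (q := fun j => x j = y j → _ ≤ w U x y j)) rfl rfl

def Good (U : Fin d → ℤ_[3]) : Prop := ∀ j (n : ℤ), 2 * U j ≠ n

def h (k : ℕ) : ℤ := 3 ^ k / 2

lemma h_eq (k : ℕ) : 3 ^ k = 2 * h k + 1 := by
  have : Odd ((3 : ℤ) ^ k) := Odd.pow (by decide)
  rw [h, Int.odd_iff] at *
  omega

lemma cen (k : ℕ) (U : Fin d → ℤ_[3]) (x : Fin d → ℤ) : ∃ c : Fin d → ℤ,
    ∀ j, |c j - x j| ≤ h k ∧ (3 : ℤ_[3]) ^ k ∣ U j - c j := by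
  refine ⟨fun j => x j + res k (U j + ((h k - x j : ℤ) : ℤ_[3])) - h k, fun j => ⟨?_, ?_⟩⟩
  · have h1 := res_nonneg k (U j + ((h k - x j : ℤ) : ℤ_[3]))
    have h2 := res_lt k (U j + ((h k - x j : ℤ) : ℤ_[3]))
    have h3 := h_eq k
    push_cast at h2
    rw [abs_le]
    push_cast at h1 ⊢
    omega
  · have := res_add k (U j + ((h k - x j : ℤ) : ℤ_[3])) (-res k (U j + ((h k - x j : ℤ) : ℤ_[3])))
    rw [add_neg_cancel, Int.zero_emod, res_eq_zero] at this
    refine this.trans (dvd_of_eq ?_)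
    push_cast
    ring

lemma le_w {U : Fin d → ℤ_[3]} (hU : Good U) {k : ℕ} {j} {a : ℤ} (ha : (3 : ℤ_[3]) ^ k ∣ U j - a)
    (x y : Fin d → ℤ) : k ≤ w U x y j ↔ 3 ^ k ∣ 2 * a - (x j + y j) := by
  rw [w, ← PadicInt.mem_span_pow_iff_le_valuation _ (sub_ne_zero.mpr (hU _ _)),
    Ideal.mem_span_singleton, ← show _ ↔ (3 : ℤ) ^ k ∣ _ from PadicInt.pow_p_dvd_int_iff (p := 3) k _,
    show 2 * U j - (x j + y j : ℤ) = 2 * (U j - a) + (2 * a - (x j + y j) : ℤ) by push_cast; ring]
  exact dvd_add_right (ha.mul_left 2)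

def GC (c : (G d).edgeSet → unitInterval) (k : ℕ) : Prop := ∀ e : (G d).edgeSet,
  (∀ v ∈ e.1, ∀ j, |v j| ≤ 3 ^ (k + 1)) → θ d ^ k < c e ∧ (c e : ℝ) < 1 - θ d ^ k

lemma b_eq (U : Fin d → ℤ_[3]) (x : Fin d → ℤ) (i) {s : ℤ} (hs : s ≠ 0) :
    b U x (x + Pi.single i s) = w U x (x + Pi.single i s) i := by
  rw [b, sum_eq_single i (fun j _ h => by simp [h]) (by simp)]
  simp [hs]

lemma step {U : Fin d → ℤ_[3]} (hU : Good U) {c k} (hc : GC c k) {C z : Fin d → ℤ} {i}
    (hC : ∀ j, |C j| ≤ h (k + 1) ∧ (3 : ℤ_[3]) ^ (k + 1) ∣ U j - C j)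
    (hz : ∀ j, |z j - C j| ≤ h (k + 1)) (h1 : z i + 1 - C i ≤ h (k + 1))
    (h2 : ∀ j ≠ i, (3 : ℤ_[3]) ^ k ∣ U j - z j) : (O (G d) (X U c)).Adj z (z + Pi.single i 1) := by
  have h3 := h_eq (k + 1)
  refine (O_adj _).mpr ⟨adj_iff.mpr ⟨i, 1, Or.inl rfl, rfl⟩, decide_eq_true ((hc _ ?_).2.trans_le ?_)⟩
  · have h4 := fun j => abs_le.mp (hC j).1
    have h5 := fun j => abs_le.mp (hz j)
    simp only [Sym2.mem_iff, abs_le]
    rintro v (rfl | rfl) j <;> have := h4 j <;> have := h5 j
    · omega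
    · by_cases k : j = i
      · subst k
        simp only [Pi.add_apply, Pi.single_eq_same]
        omega
      · simp only [Pi.add_apply, Pi.single_eq_of_ne k]
        omega
  have h4 : ∀ j, z j = (z + Pi.single i 1 : Fin d → ℤ) j → k ≤ w U z (z + Pi.single i 1) j :=
    fun j e => (le_w hU (h2 j (by rintro rfl; simp at e)) _ _).mpr (by rw [← e, ← two_mul]; simp)
  have h0 : (0 : ℝ) < d := by exact_mod_cast i.pos
  simp only [q, Sym2.lift_mk, q']
  rw [if_pos fun j e => le_trans ?_ (h4 j e), sub_le_sub_iff_left, div_le_iff₀ (by positivity)]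
  · refine (sum_le_card_nsmul _ _ (θ d ^ k) fun j _ => ?_).trans ?_
    · split_ifs with e
      · exact pow_le_pow_of_le_one θ_pos.le θ_le (h4 j e)
      · exact (pow_pos θ_pos _).le
    · simp only [card_univ, Fintype.card_fin, nsmul_eq_mul]
      nlinarith [pow_pos (θ_pos (d := d)) k]
  · rw [b_eq _ _ _ one_ne_zero]
    by_contra k'
    have h5 := Int.le_of_dvd (abs_pos.mpr (by simp; omega)) ((dvd_abs _ _).mpr
      ((le_w hU (hC i).2 _ _).mp (not_le.mp k')))
    have := abs_le.mp (hz i)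
    simp only [Pi.add_apply, Pi.single_eq_same, abs_eq_max_neg] at h5
    omega

lemma perc (hd : 2 ≤ d) {U : Fin d → ℤ_[3]} (hU : Good U) {c} (hc : ∀ᶠ k in atTop, GC c k) :
    ∃ K : (O (G d) (X U c)).ConnectedComponent, K.supp.Infinite := by
  obtain ⟨k₀, hc⟩ := eventually_atTop.mp hc
  choose C hC using fun k => cen k U 0
  simp only [Pi.zero_apply, sub_zero] at hC
  have h1 : ∀ k ≥ k₀, (O (G d) (X U c)).Reachable (C k) (C (k + 1)) := fun k hk => by
    have h2 : ∀ j, |C k j - C (k + 1) j| ≤ h (k + 1) := fun j => by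
      obtain ⟨m, hm⟩ : (3 : ℤ) ^ k ∣ C k j - C (k + 1) j := by
        refine (PadicInt.pow_p_dvd_int_iff (p := 3) k _).mp ?_
        have := ((pow_dvd_pow _ k.le_succ).trans (hC (k + 1) j).2).sub (hC k j).2
        rwa [sub_sub_sub_cancel_left, ← Int.cast_sub] at this
      have e1 := h_eq k
      have e2 := h_eq (k + 1)
      have e3 := abs_le.mp (hC k j).1
      have e4 := abs_le.mp (hC (k + 1) j).1
      rw [pow_succ] at e2
      have : m = -1 ∨ m = 0 ∨ m = 1 := by
        have : -2 < m := by nlinarith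
        have : m < 2 := by nlinarith
        omega
      rw [abs_le]
      rcases this with rfl | rfl | rfl <;> omega
    have h0 : 0 ≤ h (k + 1) := (abs_nonneg _).trans (h2 ⟨0, by omega⟩)
    rw [← piecewise_univ (C (k + 1)) (C k)]
    induction (univ : Finset (Fin d)) using Finset.induction_on with
    | empty => simp
    | insert i S hi ih =>
      set z := S.piecewise (C (k + 1)) (C k)
      have h3 : ∀ j, |z j - C (k + 1) j| ≤ h (k + 1) ∧ (3 : ℤ_[3]) ^ k ∣ U j - z j := fun j => by
        by_cases e : j ∈ S <;> simp [z, e, h0, h2, (hC k j).2,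
          (pow_dvd_pow _ k.le_succ).trans (hC (k + 1) j).2]
      have h4 : ∀ r, C (k + 1) i - h (k + 1) ≤ r → r ≤ C (k + 1) i + h (k + 1) →
          (O (G d) (X U c)).Reachable (Function.update z i (C (k + 1) i - h (k + 1)))
            (Function.update z i r) := fun r hr => by
        induction r, hr using Int.leInduction with
        | base => exact fun _ => .rfl
        | succ r hr ih =>
          refine fun e => (ih (by omega)).trans ?_
          convert (step hU (hc k hk) (hC (k + 1)) (z := Function.update z i r) (i := i)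
            (fun j => ?_) (by simp; omega) fun j e => by simp [e, (h3 j).2]).reachable using 1
          · ext j
            by_cases e : j = i <;> simp [e]
          · by_cases e : j = i
            · simp [e, abs_le]
              omega
            · simp [e, (h3 j).1]
      have h5 := abs_le.mp (h3 i).1
      have h6 := h4 (z i) (by omega) (by omega)
      rw [Function.update_eq_self] at h6
      rw [piecewise_insert]
      exact ih.trans (h6.symm.trans (h4 _ (by omega) (by omega)))
  have h2 : ∀ k ≥ k₀, (O (G d) (X U c)).Reachable (C k) (C k₀) := fun k hk => by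
    induction k, hk using Nat.le_induction with
    | base => rfl
    | succ k hk ih => exact (h1 k hk).symm.trans ih
  refine ⟨(O (G d) (X U c)).connectedComponentMk (C k₀), fun k => ?_⟩
  obtain ⟨n, hn⟩ := (k.image fun y => w U y y ⟨0, by omega⟩).bddAbove
  have h3 := hn ⟨_, SimpleGraph.ConnectedComponent.sound (h2 (k₀ + n + 1) (by omega)), rfl⟩
  have := (le_w hU (hC (k₀ + n + 1) ⟨0, by omega⟩).2 (C (k₀ + n + 1)) (C (k₀ + n + 1))).mpr
    (by rw [← two_mul]; simp)
  simp only at h3
  omega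

lemma gates {U : Fin d → ℤ_[3]} (hU : Good U) (x : Fin d → ℤ) :
    ∃ Γ : ℕ → Finset (G d).edgeSet, (∀ k, (Γ k).card ≤ d * 2) ∧ (∀ e, ∀ᶠ k in atTop, e ∉ Γ k) ∧
    ∀ c (η : (G d).edgeSet → Bool), (∀ᶠ k in atTop, GC c k) → (∃ᶠ k in atTop, ∀ e ∈ Γ k, η e = false) →
      ((O (G d) fun e => X U c e && η e).connectedComponentMk x).supp.Finite := by
  classical
  choose C hC using fun k => cen k U x
  let Γ : ℕ → Finset (G d).edgeSet := fun k => univ.image fun p : Fin d × ℤˣ =>
    ⟨s(C k + Pi.single p.1 (p.2 * h k), C k + Pi.single p.1 (p.2 * h k) + Pi.single p.1 p.2.1),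
      adj_iff.mpr ⟨_, _, Int.isUnit_iff.mp p.2.isUnit, rfl⟩⟩
  have key : ∀ k i (s : ℤ) (y : Fin d → ℤ), s = 1 ∨ s = -1 → y i = C k i + s * h k →
      k ≤ b U y (y + Pi.single i s) := fun k i s y hs e => by
    rw [b_eq _ _ _ (by omega), le_w hU (hC k i).2]
    exact ⟨-s, by simp [e, h_eq]; ring⟩
  refine ⟨Γ, fun k => card_image_le.trans (by simp), fun e => ?_, fun c η hc hη => ?_⟩
  · refine (eventually_gt_atTop (Sym2.lift ⟨b U, fun x y => by
      simp only [b, w, add_comm (x _), eq_comm (a := x _)]⟩ e.1)).mono fun k hk he => hk.not_ge ?_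
    obtain ⟨p, -, rfl⟩ := mem_image.mp he
    exact key _ _ _ _ (Int.isUnit_iff.mp p.2.isUnit) (by simp)
  obtain ⟨k, h1, h2, h3⟩ := (hη.and_eventually (hc.and (eventually_all.mpr fun j =>
    eventually_ge_atTop (x j).natAbs))).exists
  have h4 := h_eq k
  suffices ∀ y z, (O (G d) fun e => X U c e && η e).Adj y z → (∀ j, |y j - C k j| ≤ h k) →
      ∀ j, |z j - C k j| ≤ h k by
    refine (Fintype.piFinset fun j => Icc (C k j - h k) (C k j + h k)).finite_toSet.subset
      fun y hy => ?_
    have h5 : ∀ j, |y j - C k j| ≤ h k := by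
      have := (SimpleGraph.reachable_iff_reflTransGen _ _).mp
        (SimpleGraph.ConnectedComponent.exact hy).symm
      induction this with
      | refl => simpa only [abs_sub_comm] using fun j => (hC k j).1
      | tail a b ih => exact this _ _ b (ih (SimpleGraph.ConnectedComponent.sound
          ((SimpleGraph.reachable_iff_reflTransGen _ _).mpr a).symm))
    simp only [mem_coe, Fintype.mem_piFinset, mem_Icc, abs_le] at h5 ⊢
    exact fun j => by have := h5 j; omega
  intro y z hyz hy j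
  obtain ⟨a, h5⟩ := (O_adj _).mp hyz
  obtain ⟨i, s, hs, rfl⟩ := adj_iff.mp a
  by_contra h6
  obtain rfl : j = i := by
    by_contra e
    simp [e, hy j] at h6
  have h7 : y j = C k j + s * h k := by
    have := abs_le.mp (hy j)
    simp only [Pi.add_apply, Pi.single_eq_same, abs_le] at h6
    rcases hs with rfl | rfl <;> omega
  have h8 := key k j s y hs h7
  rw [Bool.and_eq_true, X, decide_eq_true_eq] at h5
  by_cases e : ∀ i, y i = (y + Pi.single j s : Fin d → ℤ) i →
      b U y (y + Pi.single j s) ≤ w U y (y + Pi.single j s) i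
  · obtain rfl : y = C k + Pi.single j (s * h k) := funext fun i => by
      by_cases e' : i = j
      · simp [e', h7]
      · have h9 := (le_w hU (hC k i).2 _ _).mp (h8.trans (e i (by simp [e'])))
        have := abs_le.mp (hy i)
        have := Int.eq_zero_of_abs_lt_dvd h9 (by simp [e', abs_lt]; omega)
        simp [e'] at this ⊢
        omega
    simpa [h5.2] using h1 _ (mem_image.mpr ⟨(j, (Int.isUnit_iff.mpr hs).unit), by simp, rfl⟩)
  · have h9 := (h2 ⟨_, a⟩ ?_).1.trans h5.1
    · simp only [q, Sym2.lift_mk, q', if_neg e] at h9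
      linarith [pow_le_pow_of_le_one (θ_pos (d := d)).le θ_le h8, pow_pos (θ_pos (d := d)) k]
    simp only [Sym2.mem_iff, abs_le, pow_succ]
    have h10 : ∀ i, -3 ^ k ≤ x i ∧ x i ≤ 3 ^ k := fun i => by
      have : ((x i).natAbs : ℤ) < 3 ^ k := by
        exact_mod_cast (h3 i).trans_lt (Nat.lt_pow_self (by norm_num))
      omega
    rintro v (rfl | rfl) i <;> have := abs_le.mp (hy i) <;> have := abs_le.mp (hC k i).1 <;>
      have := h10 i
    · omega
    · simp only [Pi.add_apply, Pi.single_apply]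
      split_ifs <;> omega

end Pool.Agent.H.MP_cc1c4a_pr
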