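import Pool.Agent.H.MP_cc1c4a_pr.A

set_option maxHeartbeats 400000

namespace Pool.Agent.H.MP_cc1c4a_pr

open Finset Filter MeasureTheory ProbabilityTheory Pool.Agent.Lib.helper3 Padic Zd Coins
open scoped ENNReal

variable {d : ℕ}

noncomputable abbrev HU (d : ℕ) := Measure.infinitePi fun _ : Fin d => H 3

noncomputable abbrev Co (d : ℕ) :=
  Measure.infinitePi fun _ : (G d).edgeSet => (volume : Measure unitInterval)

noncomputable def M (d : ℕ) : Measure ((G d).edgeSet → Bool) :=
  ((HU d).prod (Co d)).map fun z => X z.1 z.2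

lemma X_meas : Measurable fun z : (Fin d → ℤ_[3]) × ((G d).edgeSet → unitInterval) => X z.1 z.2 :=
  measurable_pi_lambda _ fun e => measurable_to_bool (by
    simpa [X, Set.preimage] using measurableSet_lt (measurable_subtype_coe.comp
      ((measurable_pi_apply e).comp measurable_snd)) ((q_meas e.1).comp measurable_fst))

instance Mp : IsProbabilityMeasure (M d) := Measure.isProbabilityMeasure_map X_meas.aemeasurable

lemma good_ae : ∀ᵐ U ∂HU d, Good U := by
  refine ae_all_iff.mpr fun j => ae_all_iff.mpr fun n => ae_of_ae_map (μ := HU d) (f := fun U => U j)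
    (p := fun u : ℤ_[3] => 2 * u ≠ (n : ℤ_[3])) (measurable_pi_apply j).aemeasurable ?_
  rw [Measure.infinitePi_map_eval, ae_iff]
  by_cases h : ∃ a : ℤ_[3], 2 * a = n
  · obtain ⟨a, h⟩ := h
    refine le_zero_iff.mp (ge_of_tendsto' (ENNReal.tendsto_pow_atTop_nhds_zero_of_lt_one
      (r := 3⁻¹) (by simp)) fun k => (measure_mono fun u hu => ?_).trans
        ((H_res (p := 3) k (res_nonneg k a) (res_lt k a)).trans_le (by simp [ENNReal.inv_pow])))
    exact congrArg _ (mul_left_cancel₀ two_ne_zero ((not_not.mp hu).trans h.symm))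
  · simp [show ∀ a : ℤ_[3], 2 * a ≠ n from fun a e => h ⟨a, e⟩]

lemma gc_ae : ∀ᵐ c ∂Co d, ∀ᶠ k in atTop, GC c k := by
  classical
  refine (ae_eventually_notMem (s := fun k => {c | ¬ GC c k}) (ne_top_of_le_ne_top
    (summable_geometric_two.mul_left (2 * 9 ^ (2 * d))).tsum_ofReal_ne_top
    (ENNReal.tsum_le_tsum fun k => ?_))).mono fun c h => by simpa using h
  have h1 := pow_pos (θ_pos (d := d)) k
  have h2 := pow_le_one₀ (n := k) (θ_pos (d := d)).le θ_le
  let T := Fintype.piFinset fun _ : Fin d => Icc (-3 ^ (k + 1) : ℤ) (3 ^ (k + 1))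
  refine (measure_mono (t := ⋃ e ∈ T.sym2.subtype (· ∈ (G d).edgeSet), (fun c => c e) ⁻¹'
    (Set.Iic ⟨θ d ^ k, h1.le, h2⟩ ∪ Set.Ici ⟨1 - θ d ^ k, by linarith, by linarith⟩))
    fun c hc => ?_).trans ((measure_biUnion_finset_le _ _).trans
      ((sum_le_card_nsmul _ _ (ENNReal.ofReal (2 * θ d ^ k)) fun e _ => ?_).trans ?_))
  · simp only [GC, Set.mem_ofPred_eq, not_forall, not_and_or, not_lt] at hc
    obtain ⟨e, h3, h4⟩ := hc
    exact Set.mem_biUnion (show e ∈ (T.sym2.subtype _ : Finset _) by
      simpa [T, mem_sym2_iff, abs_le] using h3) h4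
  · rw [← Measure.map_apply (measurable_pi_apply e) (measurableSet_Iic.union measurableSet_Ici),
      Measure.infinitePi_map_eval, two_mul, ENNReal.ofReal_add h1.le h1.le]
    exact (measure_union_le _ _).trans_eq (by simp)
  · rw [nsmul_eq_mul, ← ENNReal.ofReal_natCast, ← ENNReal.ofReal_mul (by simp)]
    refine ENNReal.ofReal_le_ofReal ?_
    have h3 : T.card ≤ 3 ^ ((k + 2) * d) := by
      rw [Fintype.card_piFinset, prod_const, card_univ, Fintype.card_fin, pow_mul, Int.card_Icc]
      refine Nat.pow_le_pow_left (Int.toNat_le.mpr ?_) _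
      have := pow_pos (show (0 : ℤ) < 3 by norm_num) (k + 1)
      push_cast
      rw [pow_succ _ (k + 1)]
      omega
    have h4 : (T.sym2.subtype (· ∈ (G d).edgeSet)).card ≤ 9 ^ ((k + 2) * d) := by
      rw [card_subtype, sym2_eq_image, show 9 = 3 * 3 from rfl, mul_pow]
      exact (card_filter_le _ _).trans (card_image_le.trans
        ((card_product _ _).trans_le (Nat.mul_le_mul h3 h3)))
    refine (mul_le_mul_of_nonneg_right (Nat.cast_le.mpr h4) (by positivity)).trans_eq ?_
    simp only [θ, add_mul, pow_add, one_div, inv_pow, mul_pow, ← pow_mul, mul_comm d k]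
    push_cast
    field_simp

lemma inv (φ : G d ≃g G d) : (M d).map (fun ω e => ω (φ.mapEdgeSet e)) = M d := by
  obtain ⟨σ, s, hs, h⟩ := aut φ
  have h0 : ∀ j, MeasurePreserving (fun u : ℤ_[3] => s j * u + φ 0 j) (H 3) (H 3) := fun j => by
    refine (measurePreserving_add_right _ _).comp (f := fun u : ℤ_[3] => s j * u) ?_
    rcases hs j with h | h
    · simpa [h] using ⟨measurable_id', Measure.map_id'⟩
    · simpa [h] using Measure.measurePreserving_neg (H 3)
  have h1 : MeasurePreserving (fun (U : Fin d → ℤ_[3]) j => s j * U (σ j) + φ 0 j) (HU d) (HU d) :=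
    MeasurePreserving.comp (g := fun (U : Fin d → ℤ_[3]) j => s j * U j + φ 0 j)
      (f := fun (U : Fin d → ℤ_[3]) j => U (σ j)) (μb := HU d) ⟨by fun_prop, by
        rw [Measure.infinitePi_map_pi _ fun j => (h0 j).measurable]
        simp only [(h0 _).map_eq]⟩
      ⟨by fun_prop, Measure.map_infinitePi_infinitePi_of_inj σ.injective⟩
  have h2 : MeasurePreserving (fun (c : _ → unitInterval) e => c (φ.mapEdgeSet e)) (Co d) (Co d) :=
    ⟨by fun_prop, Measure.map_infinitePi_infinitePi_of_inj φ.mapEdgeSet.injective⟩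
  have h3 := h1.prod (MeasurePreserving.id (Co d))
  have h4 := (MeasurePreserving.id (HU d)).prod h2
  rw [M]
  nth_rw 1 [← h3.map_eq]
  nth_rw 2 [← h4.map_eq]
  rw [Measure.map_map X_meas h3.measurable, Measure.map_map X_meas h4.measurable,
    Measure.map_map (by fun_prop) (X_meas.comp h3.measurable)]
  congr 1
  ext ⟨U, c⟩ e
  have := q_aut σ s (φ 0) hs U e
  rw [show (fun x j => s j * x (σ j) + φ 0 j) = φ from funext fun x => funext fun j => (h x j).symm]
    at this
  exact congrArg (fun r : ℝ => decide ((c (φ.mapEdgeSet e) : ℝ) < r)) this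

lemma cut_meas (r : ℝ) : Measurable fun t : unitInterval => decide ((t : ℝ) < r) :=
  measurable_to_bool (by
    simpa [Set.preimage] using measurableSet_lt measurable_subtype_coe (measurable_const (a := r)))

lemma cut_ne {r : ℝ} (h : 0 < r ∧ r < 1) (a : Bool) :
    volume ((fun t : unitInterval => decide ((t : ℝ) < r)) ⁻¹' {a}) ≠ 0 := by
  cases a
  · rw [show _ ⁻¹' _ = Set.Ici (⟨r, h.1.le, h.2.le⟩ : unitInterval) by
      ext; simp [← Subtype.coe_le_coe]]
    simpa using h.2
  · rw [show _ ⁻¹' _ = Set.Iio (⟨r, h.1.le, h.2.le⟩ : unitInterval) by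
      ext; simp [← Subtype.coe_lt_coe]]
    simpa using h.1

lemma tol' {ι : Type} (F : ι → unitInterval → Bool) (hF : ∀ i, Measurable (F i)) (e : ι) (a : Bool)
    (hr : volume (F e ⁻¹' {a}) ≠ 0) {A : Set (ι → Bool)}
    (hA : MeasurableSet[cylinderEvents {e}ᶜ] A)
    (h : (Measure.infinitePi fun _ : ι => (volume : Measure unitInterval))
      ((fun c f => F f (c f)) ⁻¹' (A ∩ {ω | ω e = a})) = 0) :
    (Measure.infinitePi fun _ : ι => (volume : Measure unitInterval))
      ((fun c f => F f (c f)) ⁻¹' A) = 0 := by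
  have h0 : Measurable[cylinderEvents {e}ᶜ, cylinderEvents {e}ᶜ]
      fun (c : ι → unitInterval) f => F f (c f) :=
    measurable_cylinderEvents_iff.mpr fun f hf => (hF f).comp (measurable_cylinderEvent_apply hf)
  have h3 := hF e (measurableSet_singleton a)
  have h4 := indep_cyl (fun _ : ι => (volume : Measure unitInterval)) (S := {e}ᶜ) (T := {e})
    (Set.disjoint_left.mpr fun _ h => h) (h0 hA) (measurable_cylinderEvent_apply (Set.mem_singleton e) h3)
  refine (mul_eq_zero.mp (h4.symm.trans h)).resolve_right ?_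
  rwa [← Measure.map_apply (measurable_pi_apply e) h3, Measure.infinitePi_map_eval]

lemma tol (hd : 2 ≤ d) (e : (G d).edgeSet) (a : Bool) {A : Set ((G d).edgeSet → Bool)}
    (hA : MeasurableSet[cylinderEvents {e}ᶜ] A) (h : M d (A ∩ {ω | ω e = a}) = 0) : M d A = 0 := by
  have h1 := cylinderEvents_le_pi _ hA
  have h2 : MeasurableSet {ω : (G d).edgeSet → Bool | ω e = a} :=
    (measurableSet_singleton a).preimage (measurable_pi_apply e)
  rw [M, Measure.map_apply X_meas (h1.inter h2), Measure.measure_prod_null (X_meas (h1.inter h2))] at h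
  rw [M, Measure.map_apply X_meas h1, Measure.measure_prod_null (X_meas h1)]
  exact h.mono fun U h => tol' (fun (f : (G d).edgeSet) t => decide ((t : ℝ) < q U f))
    (fun _ => cut_meas _) e a (cut_ne (q_mem hd U e) a) hA h

lemma energy (hd : 2 ≤ d) (e : (G d).edgeSet) : ∀ᵐ ω ∂M d,
    0 < (M d)[{ω | ω e = true}.indicator fun _ => (1 : ℝ) | cylinderEvents {e}ᶜ] ω ∧
      (M d)[{ω | ω e = true}.indicator fun _ => (1 : ℝ) | cylinderEvents {e}ᶜ] ω < 1 := by
  have h2 : MeasurableSet {ω : (G d).edgeSet → Bool | ω e = true} :=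
    (measurableSet_singleton true).preimage (measurable_pi_apply e)
  set g := (M d)[{ω | ω e = true}.indicator fun _ => (1 : ℝ) | cylinderEvents {e}ᶜ]
  have h3 : Measurable[cylinderEvents {e}ᶜ] g := stronglyMeasurable_condExp.measurable
  have h4 : ∀ A, MeasurableSet[cylinderEvents {e}ᶜ] A →
      ∫ ω in A, g ω ∂M d = (M d).real (A ∩ {ω | ω e = true}) := fun A hA => by
    rw [setIntegral_condExp cylinderEvents_le_pi ((integrable_const _).indicator h2) hA,
      integral_indicator h2, Measure.restrict_restrict h2, Set.inter_comm]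
    simp
  refine Eventually.and (ae_iff.mpr ?_) (ae_iff.mpr ?_) <;> simp only [not_lt]
  · have hA := h3 (measurableSet_Iic (a := (0 : ℝ)))
    refine tol hd e true hA ((measureReal_eq_zero_iff (measure_ne_top _ _)).mp
      (le_antisymm (h4 _ hA ▸ ?_) measureReal_nonneg))
    exact setIntegral_nonpos (cylinderEvents_le_pi _ hA) fun _ h => h
  · have hA := h3 (measurableSet_Ici (a := (1 : ℝ)))
    refine tol hd e false hA ((measureReal_eq_zero_iff (measure_ne_top _ _)).mp
      (le_antisymm ?_ measureReal_nonneg))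
    have h5 := setIntegral_ge_of_const_le_real (μ := M d) (cylinderEvents_le_pi _ hA)
      (measure_ne_top _ _) (fun _ h => h) integrable_condExp.integrableOn
    have h6 := measureReal_inter_add_sdiff (μ := M d) (s := g ⁻¹' Set.Ici 1) h2
    rw [h4 _ hA] at h5
    rw [show _ \ _ = {a | 1 ≤ g a} ∩ {ω | ω e = false} by ext; simp] at h6
    linarith

lemma perc_ae (hd : 2 ≤ d) :
    ∀ᵐ ω ∂M d, ∃ K : (O (G d) ω).ConnectedComponent, K.supp.Infinite := by
  rw [M, ae_map_iff X_meas.aemeasurable (inf_meas _)]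
  exact (Measure.ae_prod_iff_ae_ae (X_meas (inf_meas _))).mpr <| good_ae.mono fun U hU => gc_ae.mono fun c hc => perc hd hU hc

lemma thin (ν : Measure Bool) [IsProbabilityMeasure ν] (hν : ν {false} ≠ 0) :
    ∀ᵐ z ∂(M d).prod (Measure.infinitePi fun _ : (G d).edgeSet => ν),
      ¬ ∃ K : (O (G d) fun e => z.1 e && z.2 e).ConnectedComponent, K.supp.Infinite := by
  have h1 : Measurable fun (z : ((G d).edgeSet → Bool) × ((G d).edgeSet → Bool)) e =>
      z.1 e && z.2 e := measurable_pi_lambda _ fun e =>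
    (Measurable.of_discrete (f := fun a : Bool × Bool => a.1 && a.2)).comp
      (f := fun z : ((G d).edgeSet → Bool) × ((G d).edgeSet → Bool) => (z.1 e, z.2 e))
      (((measurable_pi_apply e).comp measurable_fst).prodMk
        ((measurable_pi_apply e).comp measurable_snd))
  have h2 := (h1 (inf_meas (G d))).compl
  have h3 := measurable_measure_prodMk_left (ν := Measure.infinitePi fun _ : (G d).edgeSet => ν)
    h2.compl (measurableSet_singleton 0)
  refine (Measure.ae_prod_iff_ae_ae h2).mpr ((ae_map_iff X_meas.aemeasurable h3).mpr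
    ((Measure.ae_prod_iff_ae_ae (X_meas h3)).mpr
      (good_ae.mono fun U hU => gc_ae.mono fun c hc => ?_)))
  choose Γ k1 k2 k3 using gates hU
  refine (ae_all_iff.mpr fun x => io_closed ν hν (Γ x) _ (k1 x) (k2 x)).mono fun η hη ⟨K, hK⟩ => ?_
  induction K using SimpleGraph.ConnectedComponent.ind with
  | h x => exact hK (k3 x c η hc (hη x))

end Pool.Agent.H.MP_cc1c4a_pr
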